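import Pool.Agent.Y223.G.Stm4
import Pool.Agent.Y614.WC.E
import Pool.Agent.Y977.G.Eti

/-!
# Regularity of the graded algebra of a chart, finite groups (S_REG0), project G of helper223
(adapted from `Pool/Agent/Y614/WC` of helper614 and `Pool/Agent/Y977/G/Eti.lean` of helper977)
-/

set_option autoImplicit false
set_option linter.unusedSectionVars false
set_option linter.overlappingInstances false

namespace Pool.Agent.Y67.G4

open Pool.Agent.Y223.G IsLocalRing Pool.Agent.W418.LU2 Pool.Agent.Y614.WC Pool.Agent.Y977.G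

set_option maxHeartbeats 400000

section lin

variable {O : Type} [CommRing O] {p r : ℕ} {κ : Type}

/-- linear change of the first variables -/
noncomputable def lcS (O : Type) [CommRing O] {p : ℕ} (r : ℕ) (κ : Type) (c : Fin p → Fin p → ℤ) :
    MvPolynomial ((Fin p × Fin r) ⊕ κ) O →ₐ[O] MvPolynomial ((Fin p × Fin r) ⊕ κ) O :=
  MvPolynomial.aeval (Sum.elim (fun aj => ∑ i : Fin p,
    (c aj.1 i : MvPolynomial ((Fin p × Fin r) ⊕ κ) O) * MvPolynomial.X (Sum.inl (i, aj.2)))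
    fun k => MvPolynomial.X (Sum.inr k))

theorem lcS_inl (c : Fin p → Fin p → ℤ) (aj : Fin p × Fin r) :
    lcS O r κ c (MvPolynomial.X (Sum.inl aj)) = ∑ i : Fin p,
      (c aj.1 i : MvPolynomial ((Fin p × Fin r) ⊕ κ) O) * MvPolynomial.X (Sum.inl (i, aj.2)) := by
  rw [lcS, MvPolynomial.aeval_X, Sum.elim_inl]

theorem lcS_inr (c : Fin p → Fin p → ℤ) (k : κ) :
    lcS O r κ c (MvPolynomial.X (Sum.inr k)) = MvPolynomial.X (Sum.inr k) := by
  rw [lcS, MvPolynomial.aeval_X, Sum.elim_inr]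

theorem lcS_comp {c d : Fin p → Fin p → ℤ}
    (h : ∀ a k, ∑ i : Fin p, c a i * d i k = if a = k then 1 else 0) :
    (lcS O r κ d).comp (lcS O r κ c) = AlgHom.id O _ := by
  refine MvPolynomial.algHom_ext fun aj => ?_
  rcases aj with aj | k
  · rw [AlgHom.comp_apply, lcS_inl, map_sum]
    simp only [map_mul, map_intCast]
    have h1 : ∀ i : Fin p, (c aj.1 i : MvPolynomial ((Fin p × Fin r) ⊕ κ) O) *
        (lcS O r κ d) (MvPolynomial.X (Sum.inl (i, aj.2))) = ∑ k : Fin p,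
        ((c aj.1 i * d i k : ℤ) : MvPolynomial ((Fin p × Fin r) ⊕ κ) O) *
          MvPolynomial.X (Sum.inl (k, aj.2)) := by
      intro i
      rw [lcS_inl, Finset.mul_sum]
      refine Finset.sum_congr rfl fun k _ => ?_
      push_cast
      ring
    simp only [h1]
    rw [Finset.sum_comm]
    have h2 : ∀ k : Fin p, ∑ i : Fin p,
        ((c aj.1 i * d i k : ℤ) : MvPolynomial ((Fin p × Fin r) ⊕ κ) O) *
        MvPolynomial.X (Sum.inl (k, aj.2)) =
        if aj.1 = k then MvPolynomial.X (Sum.inl (k, aj.2)) else 0 := by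
      intro k
      rw [← Finset.sum_mul, ← Int.cast_sum, h]
      by_cases hk : aj.1 = k
      · rw [if_pos hk, if_pos hk]; simp
      · rw [if_neg hk, if_neg hk]; simp
    simp only [h2]
    rw [Finset.sum_ite_eq, if_pos (Finset.mem_univ _)]
    rfl
  · rw [AlgHom.comp_apply, lcS_inr, lcS_inr]
    rfl

theorem lcS_bij {c d : Fin p → Fin p → ℤ}
    (h : ∀ a k, ∑ i : Fin p, c a i * d i k = if a = k then 1 else 0)
    (h' : ∀ a k, ∑ i : Fin p, d a i * c i k = if a = k then 1 else 0) :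
    Function.Bijective (lcS O r κ c) := by
  refine Function.bijective_iff_has_inverse.2 ⟨lcS O r κ d, fun f => ?_, fun f => ?_⟩
  · exact DFunLike.congr_fun (lcS_comp (O := O) (r := r) (κ := κ) h) f
  · exact DFunLike.congr_fun (lcS_comp (O := O) (r := r) (κ := κ) h') f

end lin

theorem etAt_dfS {O K : Type} [CommRing O] [Field K] [Algebra O K] (C : Subalgebra O K)
    (Q : Ideal C) (σ : C →+* C) (p r : ℕ) (u : Fin r → C) {κ : Type} (v : κ → C)
    (h : EtAt C Q (Sum.elim (fun ij : Fin p × Fin r => σ^[ij.1] (u ij.2)) v)) :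
    EtAt C Q (Sum.elim (fun aj : Fin p × Fin r => (df σ)^[(aj.1 : ℕ)] (u aj.2)) v) := by
  obtain ⟨g, hg, het⟩ := h
  refine ⟨g, hg, ?_⟩
  set c := cm p (Polynomial.X - 1) with hc
  have hb : Function.Bijective (lcS O r κ c) :=
    lcS_bij (cm_mul deg_sub X_sub_comp) (cm_mul deg_add X_add_comp)
  have h1 : (MvPolynomial.aeval (Sum.elim (fun aj : Fin p × Fin r =>
      (df σ)^[(aj.1 : ℕ)] (u aj.2)) v) : MvPolynomial ((Fin p × Fin r) ⊕ κ) O →ₐ[O] C) =
      (MvPolynomial.aeval (Sum.elim (fun ij : Fin p × Fin r => σ^[ij.1] (u ij.2)) v)).comp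
        (lcS O r κ c) := by
    refine MvPolynomial.algHom_ext fun aj => ?_
    rcases aj with aj | k
    · rw [MvPolynomial.aeval_X, AlgHom.comp_apply, lcS_inl, map_sum, Sum.elim_inl, df_iter]
      refine Finset.sum_congr rfl fun i _ => ?_
      rw [map_mul, map_intCast, MvPolynomial.aeval_X, Sum.elim_inl]
    · rw [MvPolynomial.aeval_X, AlgHom.comp_apply, lcS_inr, MvPolynomial.aeval_X, Sum.elim_inr,
        Sum.elim_inr]
  have h2 : ((algebraMap C (Localization.Away g)).comp (MvPolynomial.aeval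
      (Sum.elim (fun aj : Fin p × Fin r => (df σ)^[(aj.1 : ℕ)] (u aj.2)) v) :
      MvPolynomial ((Fin p × Fin r) ⊕ κ) O →ₐ[O] C).toRingHom) =
      ((algebraMap C (Localization.Away g)).comp (MvPolynomial.aeval
      (Sum.elim (fun ij : Fin p × Fin r => σ^[ij.1] (u ij.2)) v) :
      MvPolynomial ((Fin p × Fin r) ⊕ κ) O →ₐ[O] C).toRingHom).comp (lcS O r κ c).toRingHom := by
    rw [h1]
    rfl
  rw [h2]
  exact RingHom.Etale.stableUnderComposition _ _ (RingHom.Etale.of_bijective hb) het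

section loc

variable {k O K : Type} [CommRing k] [CommRing O] [IsDomain O]
  [IsDedekindDomain O] [Field K] [Algebra k O] [Algebra O K] [Algebra k K] [IsScalarTower k O K]
  {p : ℕ} {τ : K ≃ₐ[k] K} {t : O ≃ₐ[k] O} {𝔓 : Ideal O} {l : ℕ} {C : Subalgebra O K}

/-- Regular parameters. -/
theorem coordsS (hIND : S_IND2) (hW : WS0 k O K p τ t 𝔓 l) (hft : Algebra.FiniteType O C)
    (hrg : IsRegularRing C) (hC : ∀ c ∈ C, τ c ∈ C) (Q : Ideal C) [Q.IsPrime]
    (hσ : ∀ c, sg τ C hC c - c ∈ Q) (hQ : Q.comap (algebraMap O C) = 𝔓)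
    {r : ℕ} (u : Fin r → C) {κ : Type} [Finite κ] (v : κ → C)
    (hE : EtAt C Q (Sum.elim (fun ai : Fin p × Fin r => (sg τ C hC)^[ai.1] (u ai.2)) v))
    {π : O} (hπ : π ∈ 𝔓) (hπ2 : π ∉ 𝔓 ^ 2) :
    Ind (fun i => algebraMap C (Localization.AtPrime Q)
      (wx (sg τ C hC) p (algebraMap O C π) u i)) := by
  have h1 := etAt_dfS C Q (sg τ C hC) p r u v hE
  have hlt : ∀ a : Fin (p - 1), (a : ℕ) + 1 < p := fun a => by have := a.2; omega
  have h2 := hIND O K C hft hrg Q ((Fin p × Fin r) ⊕ κ) (Fin r × Fin (p - 1)) _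
    (fun ja => Sum.inl (⟨(ja.2 : ℕ) + 1, hlt ja.2⟩, ja.1)) ?_ h1 𝔓 hW.mx hW.ne π hπ hπ2 hQ ?_
  · convert h2 using 2 with i
    rcases i with _ | ⟨j, a⟩
    · rfl
    · rfl
  · rintro ⟨j, a⟩ ⟨j', a'⟩ h
    simp only [Sum.inl.injEq, Prod.mk.injEq, Fin.mk.injEq, Nat.add_right_cancel_iff] at h
    rw [Prod.mk.injEq]
    exact ⟨h.2, Fin.ext h.1⟩
  · rintro ⟨j, a⟩
    rw [Sum.elim_inl]
    change (df (sg τ C hC))^[(a : ℕ) + 1] (u j) ∈ Q
    rw [Function.iterate_succ_apply']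
    exact hσ _

/-- The iterates of `σ - 1` in the weighted filtration. -/
theorem filtrS (hTAY : S_TAY) (hW : WS0 k O K p τ t 𝔓 l)
    (hC : ∀ c ∈ C, τ c ∈ C) (Q : Ideal C) [Q.IsPrime]
    (hσ : ∀ c, sg τ C hC c - c ∈ Q) (hQ : Q.comap (algebraMap O C) = 𝔓)
    {π : O} {r : ℕ} {u : Fin r → C} (hπ : π ∈ 𝔓) (hπ2 : π ∉ 𝔓 ^ 2)
    (hJ : ∀ J : Ideal (Localization.AtPrime Q),
      (∀ o, algebraMap C (Localization.AtPrime Q) (algebraMap O C (t o - o)) ∈ J) →
      (∀ j a, 1 ≤ a → a < p →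
        algebraMap C (Localization.AtPrime Q) ((df (sg τ C hC))^[a] (u j)) ∈ J) →
      ∀ c, algebraMap C (Localization.AtPrime Q) (sg τ C hC c - c) ∈ J) :
    (∀ (n : ℕ) (e : O), e ∈ 𝔓 ^ n →
      ∃ c, algebraMap C (Localization.AtPrime Q) (algebraMap O C e) =
      algebraMap C (Localization.AtPrime Q) (algebraMap O C π) ^ n * c) ∧
    ∀ a, a < p → ∀ c : C, algebraMap C (Localization.AtPrime Q)
      ((df (sg τ C hC))^[a] c) ∈ FI (fun i => algebraMap C (Localization.AtPrime Q)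
        (wx (sg τ C hC) p (algebraMap O C π) u i)) (wv l r p) (wt l a) := by
  let B := Localization.AtPrime Q
  let σ : C →+* C := sg τ C hC
  let g : C →+* B := algebraMap C (Localization.AtPrime Q)
  let f : O →+* B := g.comp (algebraMap O C)
  have hunit : ∀ a, a ∉ 𝔓 → IsUnit (f a) := by
    intro a ha
    refine IsLocalization.map_units (M := Q.primeCompl) B (⟨algebraMap O C a, ?_⟩ : Q.primeCompl)
    intro h
    apply ha
    rw [← hQ]
    exact h
  have hpow : ∀ (n : ℕ) (e : O), e ∈ 𝔓 ^ n → ∃ c, f e = f π ^ n * c := fun n e he =>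
    map_pow_le hπ hπ2 f hunit n he
  refine ⟨hpow, ?_⟩
  have hcomap : Q = Q.comap σ := by
    ext c
    exact (mem_iff_of_sub_mem (hσ c)).symm
  let σQ : B →+* B := Localization.localRingHom Q Q σ hcomap
  have hσQ : ∀ c, σQ (g c) = g (σ c) := fun c => Localization.localRingHom_to_map Q Q σ hcomap c
  have hcom : ∀ o, σ (algebraMap O C o) = algebraMap O C (t o) := by
    intro o
    apply Subtype.ext
    exact hW.com o
  have hord : ∀ c, σ^[p] c = c := by
    intro c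
    apply Subtype.ext
    rw [sg_iter]
    exact hW.ord _
  have hordQ : ∀ x : B, σQ^[p] x = x := by
    have h1 : (σQ ^ p) = RingHom.id B := by
      apply IsLocalization.ringHom_ext Q.primeCompl
      ext c
      change (σQ ^ p) (g c) = g c
      rw [RingHom.coe_pow, iter_map g σ σQ hσQ, hord]
    intro x
    rw [← RingHom.coe_pow, h1]
    rfl
  let J : Ideal B := Ideal.span ({f π ^ (max l 1)} ∪
    {y | ∃ j a, 1 ≤ a ∧ a < p ∧ y = (df σQ)^[a] (g (u j))})
  have hJ1 : ∀ c, g (σ c - c) ∈ J := by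
    refine hJ J ?_ ?_
    · intro o
      obtain ⟨c, hc⟩ := hpow (l + 1) _ (hW.dv o)
      have h1 : l + 1 = max l 1 + (l + 1 - max l 1) := by omega
      change f (t o - o) ∈ J
      rw [hc, h1, pow_add, mul_assoc]
      exact J.mul_mem_right _ (Ideal.subset_span (Or.inl rfl))
    · intro j a ha ha'
      refine Ideal.subset_span (Or.inr ⟨j, a, ha, ha', ?_⟩)
      exact (df_iter_map g σ σQ hσQ _ _).symm
  have hJ2 : ∀ x : B, σQ x - x ∈ J := by
    have h1 : (Ideal.Quotient.mk J).comp σQ = Ideal.Quotient.mk J := by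
      apply IsLocalization.ringHom_ext Q.primeCompl
      ext c
      change Ideal.Quotient.mk J (σQ (g c)) = Ideal.Quotient.mk J (g c)
      rw [Ideal.Quotient.eq, hσQ, ← map_sub]
      exact hJ1 c
    intro x
    rw [← Ideal.Quotient.eq]
    exact congrArg (fun φ : B →+* B ⧸ J => φ x) h1
  have hπ3 : ∃ c, σQ (f π) - f π = f π ^ (l + 1) * c := by
    obtain ⟨c, hc⟩ := hpow (l + 1) _ (hW.dv π)
    have h5 : σQ (f π) = f (t π) := (hσQ (algebraMap O C π)).trans (congrArg g (hcom π))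
    refine ⟨c, ?_⟩
    rw [← hc, map_sub, h5]
  have hpp : ∃ c, (p : B) = f π ^ ((p - 1) * l) * c := by
    obtain ⟨c, hc⟩ := hpow _ _ hW.pl
    exact ⟨c, by rw [← hc, map_natCast]⟩
  intro a ha c
  have h2 := hTAY B σQ p l r (f π) (fun j => g (u j)) hW.pp hordQ hπ3 hpp hJ2 a ha (g c)
  rw [df_iter_map g σ σQ hσQ] at h2
  have h3 : (wx σQ p (f π) fun j => g (u j)) = fun i => g (wx σ p (algebraMap O C π) u i) := by
    funext i
    exact wx_map g σ σQ hσQ p r (algebraMap O C π) u i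
  rw [h3] at h2
  exact h2

/-- The condition of the chart lemma at a point of the centre. -/
theorem local_condS (hIND : S_IND2) (hTAY : S_TAY)
    (hW : WS0 k O K p τ t 𝔓 l) (hft : Algebra.FiniteType O C)
    (hrg : IsRegularRing C) (hC : ∀ c ∈ C, τ c ∈ C)
    (H : ∀ (Q : Ideal C) [Q.IsPrime], Q.comap (algebraMap O C) = 𝔓 →
      (∀ c, sg τ C hC c - c ∈ Q) →
      ∃ (r : ℕ) (u : Fin r → C) (κ : Type) (_ : Finite κ) (v : κ → C),
        EtAt C Q (Sum.elim (fun ai : Fin p × Fin r => (sg τ C hC)^[ai.1] (u ai.2)) v) ∧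
        ∀ J : Ideal (Localization.AtPrime Q),
          (∀ o, algebraMap C (Localization.AtPrime Q) (algebraMap O C (t o - o)) ∈ J) →
          (∀ j a, 1 ≤ a → a < p →
            algebraMap C (Localization.AtPrime Q) ((df (sg τ C hC))^[a] (u j)) ∈ J) →
          ∀ c, algebraMap C (Localization.AtPrime Q) (sg τ C hC c - c) ∈ J)
    (Q : Ideal C) [hQp : Q.IsPrime]
    (hQ : ∀ (n : ℕ) (y : C), 0 < n → hm n (y : K) ∈ RR k τ p 𝔓 l C → y ∈ Q) :
    ∃ (ι : Type) (_ : Fintype ι) (x : ι → C) (a : ι → ℕ),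
      (∀ i, 0 < a i ∧ hm (a i) (x i : K) ∈ RR k τ p 𝔓 l C) ∧
      Ind (fun i => algebraMap C (Localization.AtPrime Q) (x i)) ∧
      ∀ (n : ℕ) (y : C), hm n (y : K) ∈ RR k τ p 𝔓 l C →
        algebraMap C (Localization.AtPrime Q) y ∈
          FI (fun i => algebraMap C (Localization.AtPrime Q) (x i)) a n := by
  have hQe : ∀ e ∈ 𝔓, algebraMap O C e ∈ Q := by
    intro e he
    refine hQ 1 _ one_pos ?_
    rw [Nat.cast_one]
    exact RR_e he
  have hpr : (Q.comap (algebraMap O C)).IsPrime := Ideal.comap_isPrime _ _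
  have hQ𝔓 : Q.comap (algebraMap O C) = 𝔓 := (hW.mx.eq_of_le hpr.ne_top hQe).symm
  have hσ : ∀ c, sg τ C hC c - c ∈ Q := by
    intro c
    refine hQ (wt l 1) _ (wt_pos one_pos) ?_
    have h1 := RR_del (k := k) (τ := τ) (p := p) (l := l) (𝔓 := 𝔓) hW.pp.one_lt c.2
    exact h1
  obtain ⟨r, u, κ, hκ, v, hE, hJ⟩ := H Q hQ𝔓 hσ
  obtain ⟨π, hπ, hπ'⟩ := hW.un
  have hπ2 : π ∉ 𝔓 ^ 2 := not_mem_sq (t : O →+* O) hW.dv hπ'
  have hind := coordsS hIND hW hft hrg hC Q hσ hQ𝔓 u v hE hπ hπ2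
  obtain ⟨hpow, hfil⟩ := filtrS hTAY hW hC Q hσ hQ𝔓 hπ hπ2 hJ
  refine ⟨WI r p, inferInstance, wx (sg τ C hC) p (algebraMap O C π) u, wv l r p, ?_, hind, ?_⟩
  · intro i
    cases i with
    | none =>
      refine ⟨one_pos, ?_⟩
      change hm ((1 : ℕ) : ℤ) (algebraMap O K π) ∈ _
      rw [Nat.cast_one]
      exact RR_e hπ
    | some ja =>
      obtain ⟨j, a⟩ := ja
      refine ⟨wt_pos (Nat.succ_pos _), ?_⟩
      change hm (wt l (a + 1) : ℕ) (((df (sg τ C hC))^[(a : ℕ) + 1] (u j) : C) : K) ∈ _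
      rw [sg_df]
      refine RR_del ?_ ?_
      · have := a.2; omega
      · exact (u j).2
  · intro n y hy
    refine filt_gen (algebraMap C (Localization.AtPrime Q)) _ _ ?_ ?_ n y hy
    · intro e he
      obtain ⟨c, hc⟩ := hpow 1 e (by rwa [pow_one])
      rw [pow_one] at hc
      rw [hc]
      refine Ideal.mul_mem_right _ _ ?_
      exact FI_gen _ (wv l r p) none
    · intro a ha c hc
      have h1 := hfil a ha ⟨c, hc⟩
      have h2 : (df τ)^[a] c ∈ C := by
        rw [← sg_df (hC := hC) a ⟨c, hc⟩]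
        exact ((df (sg τ C hC))^[a] ⟨c, hc⟩).2
      refine ⟨h2, ?_⟩
      have h3 : (⟨(df τ)^[a] c, h2⟩ : C) = (df (sg τ C hC))^[a] ⟨c, hc⟩ := by
        apply Subtype.ext
        rw [sg_df]
      rw [h3]
      exact h1

end loc

/-- **G4-REG0.** -/
theorem t_REG0 : S_WCH → S_RFT0 → S_RSTAB0 → S_IND2 → S_TAY → S_REG0 := by
  intro hWCH hRFT _ hIND hTAY
  intro k O K _ _ _ _ _ _ _ _ _ _ p τ t 𝔓 l hW C hft hrg σ hστ H
  have h0 := hW.pp.pos
  have hC : ∀ c ∈ C, τ c ∈ C := by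
    intro c hc
    have h1 := hστ ⟨c, hc⟩
    change _ = τ c at h1
    rw [← h1]
    exact (σ ⟨c, hc⟩).2
  have hsg : (σ : C → C) = sg τ C hC := by
    funext c
    apply Subtype.ext
    rw [sg_coe]
    exact hστ c
  have hR : Algebra.FiniteType k (RR k τ p 𝔓 l C) :=
    hRFT k O K p h0 τ 𝔓 l hW.ft (fun o => ⟨t o, hW.com o⟩) C hC hft
  have hns : IsNoetherianRing (RR k τ p 𝔓 l C) := Algebra.FiniteType.isNoetherianRing k _
  refine hWCH k K (RR k τ p 𝔓 l C) hns RR_gr RR_s (fun d x h => RR_cf h0 hC h) C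
    (C.val : C →+* K) Subtype.val_injective ?_ hrg ?_
  · intro y
    constructor
    · intro h
      exact ⟨⟨y, RR_mem_C hC h⟩, rfl⟩
    · rintro ⟨c, rfl⟩
      exact RR_c h0 c.2
  · intro Q hQp hQ
    refine local_condS hIND hTAY hW hft hrg hC ?_ Q hQ
    intro Q' hQ'p hQ' hσ'
    have h1 := H Q' hQ' (fun c => by
      have h2 := hσ' c
      rw [← hsg] at h2
      exact h2)
    rw [hsg] at h1
    exact h1

end Pool.Agent.Y67.G4
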